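import Mathlib

/-!
# MP_7b4a8e_an : cycles of prime period three of `x_{n+1} = A / x_n² + 1 / x_{n-k}^p`

For `p = 2`, every `A > 0` with `A ≠ 1` and every `k ≡ 1 (mod 3)` the sequence
`c, c/A, c/A², c, c/A, c/A², ...` with `c³ = A⁵ + A²` is a positive solution of prime period 3.
-/

namespace Pool.Agent.Results.MP_7b4a8e_an.PeriodThree

/-- `x` (indexed so that `x 0, ..., x k` are the initial values) is a positive solution of
`x_{n+1} = A / x_n² + 1 / x_{n-k}^p`. -/
def IsSolution (A p : ℝ) (k : ℕ) (x : ℕ → ℝ) : Prop :=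
  (∀ n, 0 < x n) ∧ ∀ n, x (n + k + 1) = A / x (n + k) ^ 2 + 1 / (x n) ^ p

/-- `N` is the prime period of `x`. -/
def PrimePeriod (x : ℕ → ℝ) (N : ℕ) : Prop :=
  IsLeast {M : ℕ | 1 ≤ M ∧ ∀ n, x (n + M) = x n} N

/-- `c³ = A⁵ + A²`. -/
noncomputable def c (A : ℝ) : ℝ := (A ^ 5 + A ^ 2) ^ (1 / 3 : ℝ)

lemma c_pos {A : ℝ} (hA : 0 < A) : 0 < c A := by unfold c; positivity

lemma c_cube {A : ℝ} (hA : 0 < A) : c A ^ 3 = A ^ 5 + A ^ 2 := by
  unfold c
  rw [← Real.rpow_natCast, ← Real.rpow_mul (by positivity)]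
  norm_num

/-- the solution -/
noncomputable def y (A : ℝ) (n : ℕ) : ℝ := c A / A ^ (n % 3)

lemma y_pos {A : ℝ} (hA : 0 < A) (n : ℕ) : 0 < y A n := by
  have := c_pos hA
  unfold y; positivity

lemma y_rec {A : ℝ} (hA : 0 < A) (k : ℕ) (hk : k % 3 = 1) (n : ℕ) :
    y A (n + k + 1) = A / y A (n + k) ^ 2 + 1 / (y A n) ^ (2 : ℝ) := by
  have hc := c_pos hA
  have h3 := c_cube hA
  have hc0 : c A ≠ 0 := hc.ne'
  have hA0 : A ≠ 0 := hA.ne'
  rw [show (2 : ℝ) = ((2 : ℕ) : ℝ) by norm_num, Real.rpow_natCast]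
  unfold y
  rcases (show n % 3 = 0 ∨ n % 3 = 1 ∨ n % 3 = 2 by omega) with h | h | h
  · rw [h, show (n + k) % 3 = 1 by omega, show (n + k + 1) % 3 = 2 by omega]
    field_simp
    linear_combination h3
  · rw [h, show (n + k) % 3 = 2 by omega, show (n + k + 1) % 3 = 0 by omega]
    field_simp
    linear_combination h3
  · rw [h, show (n + k) % 3 = 0 by omega, show (n + k + 1) % 3 = 1 by omega]
    field_simp
    linear_combination h3

lemma y_prime {A : ℝ} (hA : 0 < A) (h1 : A ≠ 1) : PrimePeriod (y A) 3 := by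
  have hc := c_pos hA
  constructor
  · refine ⟨by norm_num, fun n => ?_⟩
    unfold y
    rw [Nat.add_mod_right]
  · rintro M ⟨hM1, hM⟩
    by_contra hlt
    push Not at hlt
    have h0 : y A 0 = c A := by simp [y]
    have e1 : y A 1 = c A / A := by simp [y]
    have e2 : y A 2 = c A / A ^ 2 := by simp [y]
    have hM0 := hM 0
    rw [zero_add, h0] at hM0
    rcases (show M = 1 ∨ M = 2 by omega) with rfl | rfl
    · rw [e1, div_eq_iff hA.ne'] at hM0
      apply h1
      have : c A * (A - 1) = 0 := by linear_combination -hM0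
      rcases mul_eq_zero.1 this with h | h
      · exact absurd h hc.ne'
      · linarith
    · rw [e2, div_eq_iff (by positivity)] at hM0
      have : c A * (A - 1) * (A + 1) = 0 := by linear_combination -hM0
      rcases mul_eq_zero.1 this with h | h
      · rcases mul_eq_zero.1 h with h | h
        · exact absurd h hc.ne'
        · exact h1 (by linarith)
      · linarith

/-- **Answer to Q1: yes.** For `p = 2`, every `A > 0`, `A ≠ 1`, and every `k ≡ 1 (mod 3)` there is
a positive solution of prime period `3`. -/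
theorem result : ∀ A : ℝ, 0 < A → A ≠ 1 → ∀ k : ℕ, k % 3 = 1 →
    ∃ x : ℕ → ℝ, IsSolution A 2 k x ∧ PrimePeriod x 3 :=
  fun A hA h1 k hk => ⟨y A, ⟨y_pos hA, y_rec hA k hk⟩, y_prime hA h1⟩

end Pool.Agent.Results.MP_7b4a8e_an.PeriodThree
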